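import Pool.Agent.H84.SF.Geo2
import Pool.Agent.H62.HIL.Dim2

/-!
# MP_70ba79_ag, THEOREM S, chapter 11: row CHM: the ideal of the surface is homogeneous
-/

set_option autoImplicit false

namespace Pool.Agent.H11.SF

open Pool.Agent.H84.SF
open MvPolynomial SC
open Pool.Agent.H27.LV (ge deg poleOrder canDeg)
open Pool.Agent.H92.OD (HS cf sg uu Lat geO IsO DF DD)
open Pool.Agent.H84.SM (y1 y2 Near cr dt dp)
open Pool.Agent.H3.SF (Itg Bb BB Hm eu grd hes Sfc Crd Cnn Crf Prm nv)

theorem pf_CHM : T_CHM := by
  intro k F σ _ _ _ _ X u dd J j0 h s hs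
  have : CharZero F := charZero_of_injective_algebraMap (algebraMap k F).injective
  have hE : ∀ i, Hm k (eu u dd) 1 (X i) := fun i => by
    unfold Hm
    rw [h.Xeu i]
    push_cast
    ring
  refine ⟨fun f d hf => ?_, hs⟩
  have h0 : ∑ i ∈ Finset.range (f.totalDegree + 1), aeval X (homogeneousComponent i f) = 0 := by
    rw [← map_sum, sum_homogeneousComponent, hf]
  by_cases hd : d ∈ Finset.range (f.totalDegree + 1)
  · exact Pool.Agent.H62.HIL.hm_sum_eq_zero (κ := k) (E := eu u dd)
      (Finset.range (f.totalDegree + 1)) (fun i => (i : ℤ))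
      (fun a _ b _ hab => by simpa using hab) (fun i => aeval X (homogeneousComponent i f))
      (fun e _ => Pool.Agent.H62.HIL.hm_aeval hE (homogeneousComponent_isHomogeneous e f)) h0 d hd
  · rw [homogeneousComponent_eq_zero, map_zero]
    simp only [Finset.mem_range] at hd
    omega

end Pool.Agent.H11.SF
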