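import Pool.Agent.H45.SF.UT

/-! Module JM: the join of morphisms with disjoint tops (MP_3b3fc8_lc). -/

open Ordinal Cardinal Order Set
open scoped ZFSet

namespace SF.H11

open SF

theorem bmor_ext {A C : BA} {h k : BMor A C} (e : ∀ x, h x = k x) : h = k := by
  obtain ⟨⟨hf, hi, hs⟩, hb⟩ := h
  obtain ⟨⟨kf, ki, ks⟩, kb⟩ := k
  have : hf = kf := funext e
  subst this
  rfl

theorem jm (hMB : T_MB) (hG3 : T_G3) : T_JM := by
  intro I A Z f hdis hgood
  have mono : ∀ i x y, x ≤ y → f i x ≤ f i y := fun i => (hMB _ _ (f i).toMor).1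
  have hd : ∀ i j, i ≠ j → ∀ x y, f i x ⊓ f j y = ⊥ := by
    intro i j hij x y
    refine le_bot_iff.1 ?_
    rw [← hdis i j hij]
    exact inf_le_inf (mono i _ _ le_top) (mono j _ _ le_top)
  let k : BMor A Z :=
    { f := fun x => ⨆ i, f i x
      inf := by
        intro x y
        have e1 : ∀ i, f i (x ⊓ y) = f i x ⊓ f i y := fun i => (f i).inf x y
        simp only [e1]
        rw [iSup_inf_eq]
        refine le_antisymm (iSup_mono fun i => ?_) (iSup_le fun i => ?_)
        · exact inf_le_inf le_rfl (le_iSup (fun j => f j y) i)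
        · rw [inf_iSup_eq]
          refine iSup_le fun j => ?_
          by_cases hij : i = j
          · subst hij
            exact le_iSup (fun i => f i x ⊓ f i y) i
          · rw [hd i j hij]
            exact bot_le
      sup := by
        intro S
        have e1 : ∀ i, f i (sSup S) = ⨆ s ∈ S, f i s := fun i => by
          have := (f i).sup S
          rw [sSup_image] at this
          exact this
        simp only [e1]
        rw [sSup_image, iSup_comm]
        refine iSup_congr fun s => ?_
        rw [iSup_comm]
      base := by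
        intro x
        have e1 : ∀ i, f i (A.g x) = Z.g x ⊓ f i ⊤ := fun i => (f i).base x
        simp only [e1]
        rw [inf_iSup_eq] }
  have hk : ∀ x, k x = ⨆ i, f i x := fun _ => rfl
  refine ⟨k, hk, ?_⟩
  refine hG3 A Z k (Set.range fun i => f i ⊤) ?_ ?_ ?_
  · rw [sSup_range, hk]
  · rintro _ ⟨i, rfl⟩ _ ⟨j, rfl⟩ hne
    have hij : i ≠ j := by
      rintro rfl
      exact hne rfl
    exact hdis i j hij
  · rintro _ ⟨i, rfl⟩
    have e : k.res (f i ⊤) = f i := by
      refine bmor_ext fun x => ?_
      show (⨆ j, f j x) ⊓ f i ⊤ = f i x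
      rw [iSup_inf_eq]
      refine le_antisymm (iSup_le fun j => ?_) ?_
      · by_cases hij : j = i
        · subst hij
          exact inf_le_left
        · rw [hd j i hij]
          exact bot_le
      · refine le_trans (le_inf le_rfl (mono i _ _ le_top)) (le_iSup (fun j => f j x ⊓ f i ⊤) i)
    show Good (k.res (f i ⊤))
    rw [e]
    exact hgood i

end SF.H11
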