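import Pool.Agent.H45.SF.GT

/-! Projection of a composition (module MC of MP_3b3fc8_lc). -/

open Ordinal Cardinal Order Set
open scoped ZFSet

namespace SF.H11

open SF

theorem mc (hMB : T_MB) (hMP : T_MP) : T_MC := by
  intro B C D _ _ _ h k d hd
  have mono := (hMB C D k).1
  have h1 : d ≤ k ⊤ := hd.trans (mono _ _ le_top)
  have a1 := (hMP B D (h.comp k)).1
  have a2 := (hMP C D k).1
  have a3 := (hMP B C h).1
  have h2 : k.proj d ≤ h ⊤ := (a2 d _ h1).2 hd
  refine eq_of_forall_ge_iff fun b => ?_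
  rw [a1 d b hd, a3 _ b h2, a2 d _ h1]
  exact Iff.rfl

end SF.H11
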