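import Pool.Agent.H11.SF.JM

/-! Module UA: the conditions of the category forcing (MP_3b3fc8_lc). -/

open Ordinal Cardinal Order Set
open scoped ZFSet

namespace SF.H11

open SF

theorem mor_ext {B C : V} [IsCBA B] [IsCBA C] {h k : Mor B C} (e : h.gr = k.gr) : h = k := by
  have key : ∀ x, h x = k x := by
    intro x
    have h1 : ZFSet.pair x.val (h x).val ∈ k.gr := by
      rw [← e]
      exact ZFSet.mem_range.2 ⟨x, rfl⟩
    obtain ⟨y, hy⟩ := ZFSet.mem_range.1 h1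
    obtain ⟨a1, a2⟩ := ZFSet.pair_inj.1 hy
    have hyx : y = x := El.ext a1
    subst hyx
    exact (El.ext a2).symm
  obtain ⟨hf, hi, hs⟩ := h
  obtain ⟨kf, ki, ks⟩ := k
  have : hf = kf := funext key
  subst this
  rfl

theorem seq_ext {B : V} {α α' : Ordinal.{0}} {b b' : Ordinal.{0} → El B}
    (e : (ZFSet.range fun ξ : Set.Iio α => ZFSet.pair ξ.1.toZFSet (b ξ.1).val) =
      ZFSet.range fun ξ : Set.Iio α' => ZFSet.pair ξ.1.toZFSet (b' ξ.1).val) :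
    ∀ ξ < α, ξ < α' ∧ b ξ = b' ξ := by
  intro ξ hξ
  have h1 : ZFSet.pair ξ.toZFSet (b ξ).val ∈
      ZFSet.range fun ξ : Set.Iio α' => ZFSet.pair ξ.1.toZFSet (b' ξ.1).val := by
    rw [← e]
    exact ZFSet.mem_range.2 ⟨⟨ξ, hξ⟩, rfl⟩
  obtain ⟨⟨y, hy'⟩, hy⟩ := ZFSet.mem_range.1 h1
  obtain ⟨a1, a2⟩ := ZFSet.pair_inj.1 hy
  have hyx : y = ξ := Ordinal.toZFSet_injective a1
  subst hyx
  exact ⟨hy', (El.ext a2).symm⟩

theorem obj_code_inj (v v' : Obj) (e : v.code = v'.code) : v = v' := by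
  obtain ⟨A, α, b, out, good, gen⟩ := v
  obtain ⟨A', α', b', out', good', gen'⟩ := v'
  obtain ⟨e1, e2⟩ := ZFSet.pair_inj.1 e
  obtain ⟨e3, e4⟩ := ZFSet.pair_inj.1 e2
  obtain ⟨B, g, unit⟩ := A
  obtain ⟨B', g', unit'⟩ := A'
  simp only at e1
  subst e1
  have hg : g = g' := mor_ext e3
  subst hg
  have h1 := seq_ext e4
  have h2 := seq_ext e4.symm
  have hα : α = α' := by
    refine le_antisymm (le_of_forall_lt fun ξ hξ => (h1 ξ hξ).1) (le_of_forall_lt fun ξ hξ =>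
      (h2 ξ hξ).1)
  subst hα
  have hb : b = b' := by
    funext ξ
    by_cases hξ : ξ < α
    · exact (h1 ξ hξ).2
    · rw [out ξ (not_lt.1 hξ)]
      exact (out' ξ (not_lt.1 hξ)).symm
  subst hb
  rfl

theorem cd_code_inj (c c' : Cd) (e : c.code = c'.code) : c = c' := by
  obtain ⟨e1, e2⟩ := ZFSet.pair_inj.1 e
  obtain ⟨v, x, ne⟩ := c
  obtain ⟨v', x', ne'⟩ := c'
  have h1 : v = v' := obj_code_inj _ _ e1
  subst h1
  have h2 : x = x' := El.ext e2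
  subst h2
  rfl

theorem ua (hG1 : T_G1) (hG2 : T_G2) (hMB : T_MB) : T_UA := by
  have mono : ∀ {A C : BA} (h : BMor A C) x y, x ≤ y → h x ≤ h y := fun h =>
    (hMB _ _ h.toMor).1
  have gid : ∀ (A : BA) (y : El A.B), Good ((BMor.id A).res y) := by
    intro A y
    refine hG2 A A _ fun c hc => ⟨c, ?_⟩
    have h1 : c ≤ ⊤ ⊓ y := hc
    show c ⊓ y = c
    rw [top_inf_eq] at h1
    exact inf_eq_left.2 h1
  have gres : ∀ {A C : BA} (h : BMor A C) (y : El C.B), Good h → Good (h.res y) := by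
    intro A C h y hh
    have e : h.res y = h.comp ((BMor.id C).res y) := bmor_ext fun x => rfl
    rw [e]
    exact hG1 _ _ _ _ _ hh (gid C y)
  refine ⟨obj_code_inj, cd_code_inj, ?_, ?_, ?_, ?_, ?_, ?_⟩
  · intro c
    refine ⟨le_rfl, gid _ _, ?_, fun ξ _ => rfl, ?_⟩
    · show ⊤ ⊓ c.x = c.x
      rw [top_inf_eq]
    · show c.x ⊓ c.x = c.x
      rw [inf_idem]
  · intro c1 c2 c3 h k hh hk
    refine ⟨hh.len.trans hk.len, hG1 _ _ _ _ _ hh.good hk.good, ?_, ?_, ?_⟩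
    · show k (h ⊤) = c1.x
      have e1 : h ⊤ = c2.x := hh.top
      rw [e1]
      exact hk.img
    · intro ξ hξ
      show k (h (c3.v.b ξ)) = c1.v.b ξ ⊓ c1.x
      have e1 : h (c3.v.b ξ) = c2.v.b ξ ⊓ c2.x := hh.gens ξ hξ
      have e2 : k (c2.v.b ξ) = c1.v.b ξ ⊓ c1.x := hk.gens ξ (lt_of_lt_of_le hξ hh.len)
      have e3 : k c2.x = c1.x := hk.img
      rw [e1]
      have e4 : k (c2.v.b ξ ⊓ c2.x) = k (c2.v.b ξ) ⊓ k c2.x := k.inf _ _
      rw [e4, e2, e3, inf_assoc, inf_idem]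
    · show k (h c3.x) = c1.x
      have e1 : h c3.x = c2.x := hh.img
      rw [e1]
      exact hk.img
  · intro c v x x' hx hx' h h' hh hh'
    have htop : h ⊤ = h' ⊤ := by
      have e1 : h ⊤ = c.x := hh.top
      have e2 : h' ⊤ = c.x := hh'.top
      rw [e1, e2]
    refine bmor_ext (v.gen c.v.A h h' htop fun ξ => ?_)
    by_cases hξ : ξ < v.α
    · have e1 : h (v.b ξ) = c.v.b ξ ⊓ c.x := hh.gens ξ hξ
      have e2 : h' (v.b ξ) = c.v.b ξ ⊓ c.x := hh'.gens ξ hξ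
      rw [e1, e2]
    · rw [v.out ξ (not_lt.1 hξ)]
      have e1 : h ⊥ = ⊥ := (hMB _ _ h.toMor).2.1
      have e2 : h' ⊥ = ⊥ := (hMB _ _ h'.toMor).2.1
      rw [e1, e2]
  · intro c c' h hh y hy hyx
    refine ⟨hh.len, gres h y hh.good, ?_, ?_, ?_⟩
    · show h ⊤ ⊓ y = y
      have e1 : h ⊤ = c.x := hh.top
      rw [e1]
      exact inf_eq_right.2 hyx
    · intro ξ hξ
      show h (c'.v.b ξ) ⊓ y = c.v.b ξ ⊓ y
      have e1 : h (c'.v.b ξ) = c.v.b ξ ⊓ c.x := hh.gens ξ hξ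
      rw [e1, inf_assoc, inf_eq_right.2 hyx]
    · show h c'.x ⊓ y = y
      have e1 : h c'.x = c.x := hh.img
      rw [e1]
      exact inf_eq_right.2 hyx
  · intro c c' h hh z hz hy
    have e0 : h ⊤ = c.x := hh.top
    have hle : h z ≤ c.x := by
      rw [← e0]
      exact mono h _ _ le_top
    refine ⟨hh.len, gres h _ hh.good, ?_, ?_, ?_⟩
    · show h ⊤ ⊓ h z = h z
      rw [e0]
      exact inf_eq_right.2 hle
    · intro ξ hξ
      show h (c'.v.b ξ) ⊓ h z = c.v.b ξ ⊓ h z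
      have e1 : h (c'.v.b ξ) = c.v.b ξ ⊓ c.x := hh.gens ξ hξ
      rw [e1, inf_assoc, inf_eq_right.2 hle]
    · show h z ⊓ h z = h z
      rw [inf_idem]
  · intro c v x x' hx hx' h hh hxx'
    refine ⟨hh.len, hh.good, hh.top, hh.gens, ?_⟩
    have e0 : h ⊤ = c.x := hh.top
    have e1 : h x = c.x := hh.img
    show h x' = c.x
    refine le_antisymm ?_ ?_
    · rw [← e0]
      exact mono h _ _ le_top
    · rw [← e1]
      exact mono h _ _ hxx'

end SF.H11
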