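import Pool.Agent.H3.SF.Targets
import Pool.Agent.H59.SQ.KC
import Pool.Agent.H14.SQ.ORD

/-! Comparison of two sets of primes (module UUD). -/

set_option autoImplicit false

namespace Pool.Agent.H11.SF

open Finset Pool.Agent.H3.SF Pool.Agent.H99.SQ

theorem arch_le (c K : ℝ) (h : ∀ N : ℕ, c * N ≤ K) : c ≤ 0 := by
  by_contra hc
  push Not at hc
  obtain ⟨N, hN⟩ := exists_nat_gt (K / c)
  have := h N
  rw [div_lt_iff₀ hc] at hN
  nlinarith

theorem pf_UUD (hUUF : T_UUF) : T_UUD := by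
  classical
  intro F F' n hF' hsub
  have hF : ∀ p ∈ F, OP p := fun p hp => hF' p (hsub hp)
  have hpos : 0 < MP F' := Finset.prod_pos fun p hp => (Pool.Agent.H14.SQ.pf_ORD p (hF' p hp)).1
  have hd' : ∀ p ∈ F', mm p ∣ MP F' := fun p hp => Finset.dvd_prod_of_mem mm hp
  have hd : ∀ p ∈ F, mm p ∣ MP F' := fun p hp => hd' p (hsub hp)
  have h1 := (hUUF F n hF).2.1 (MP F')
  have h2 := (hUUF F' n hF').2.1 (MP F')
  have hle : ∀ N, UC F' n N ≤ UC F n N := by
    intro N
    unfold UC
    refine card_le_card ?_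
    intro l hl
    rw [mem_filter] at hl ⊢
    exact ⟨hl.1, fun p hp => hl.2 p (hsub hp)⟩
  have hge : ∀ N, (UC F n N : ℝ) ≤ UC F' n N + (N * SS (F' \ F) n + (F' \ F).card) := by
    intro N
    have hA := Pool.Agent.H59.SQ.pf_KC Pool.Agent.H14.SQ.pf_ORD (F' \ F) n N
      ((range N).filter fun l => ∃ p ∈ F' \ F, Kill p n l)
      (fun p hp => hF' p (mem_sdiff.1 hp).1)
      (fun l hl => ⟨mem_range.1 (mem_filter.1 hl).1, (mem_filter.1 hl).2⟩)
    have hc : UC F n N ≤ UC F' n N +
        ((range N).filter fun l => ∃ p ∈ F' \ F, Kill p n l).card := by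
      unfold UC
      refine le_trans (card_le_card ?_) (card_union_le _ _)
      intro l hl
      rw [mem_filter] at hl
      by_cases hk : ∃ p ∈ F' \ F, Kill p n l
      · exact mem_union_right _ (mem_filter.2 ⟨hl.1, hk⟩)
      · refine mem_union_left _ (mem_filter.2 ⟨hl.1, fun p hp hkill => ?_⟩)
        by_cases hpF : p ∈ F
        · exact hl.2 p hpF hkill
        · exact hk ⟨p, mem_sdiff.2 ⟨hp, hpF⟩, hkill⟩
    have hc' : (UC F n N : ℝ) ≤ UC F' n N +
        (((range N).filter fun l => ∃ p ∈ F' \ F, Kill p n l).card : ℝ) := by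
      exact_mod_cast hc
    linarith
  constructor
  · have := arch_le (UU F' n - UU F n) (2 * MP F') (fun N => ?_)
    · linarith
    have a1 := abs_le.1 (h1 N hpos hd)
    have a2 := abs_le.1 (h2 N hpos hd')
    have a3 : (UC F' n N : ℝ) ≤ UC F n N := by exact_mod_cast hle N
    linarith [a1.1, a1.2, a2.1, a2.2]
  · have := arch_le (UU F n - UU F' n - SS (F' \ F) n) (2 * MP F' + (F' \ F).card) (fun N => ?_)
    · linarith
    have a1 := abs_le.1 (h1 N hpos hd)
    have a2 := abs_le.1 (h2 N hpos hd')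
    have a3 := hge N
    linarith [a1.1, a1.2, a2.1, a2.2]

end Pool.Agent.H11.SF
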