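import Pool.Agent.H72.SF.VT

/-! Module VH: the requirements of the definition of subcompleteness (MP_3b3fc8_lc). -/

set_option linter.unusedVariables false

open Ordinal Cardinal Order Set
open scoped ZFSet

namespace SF.H11

open SF

theorem full_mono {W W' : V → Prop} {N : V} (h : Full W N) (hW : ∀ x, W x → W' x) : Full W' N := by
  obtain ⟨h1, h2, γ, h3, h4⟩ := h
  exact ⟨h1, h2, γ, hW _ h3, h4⟩

theorem vh_nonempty {M : V → Prop} {N : V} (h : ZFm (· ∈ N)) : N.Nonempty := ⟨_, h.inf⟩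

/-- the extension of a countable set is countable -/
theorem vh_ctbl {M : V → Prop} (k : ZFm M) {N G : V} (hN : M N) (hG : M G) (hne : N.Nonempty)
    (hc : Ctbl M N) : M (extS N G) ∧ Ctbl M (extS N G) := by
  have e1 : M (extS N G) := by
    have h1 : Tm ZFm (fun _ v => imS (v 0) fun x => val (v 1) x) :=
      Tm.image (f := fun _ v => v 0) (g := fun _ v => val (v 2) (v 0)) (Tm.var 0)
        (Tm.val (Tm.var 2) (Tm.var 0))
    exact h1.1 M k (cons N fun _ => G) (fun i => by cases i <;> assumption)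
  refine ⟨e1, ?_⟩
  rcases hc with hc | ⟨h, hh, h1, h2⟩
  · rw [hc] at hne
    exact absurd hne ZFSet.not_nonempty_empty
  · right
    refine ⟨resS om fun n => val G (app h n), ?_, ?_, ?_⟩
    · have h3 : Tm ZFm (fun _ v => resS om fun n => val (v 1) (app (v 0) n)) :=
        Tm.resS (f := fun _ _ => om) (g := fun _ v => val (v 2) (app (v 1) (v 0))) Tm.om
          (Tm.val (Tm.var 2) (Tm.app (Tm.var 1) (Tm.var 0)))
      exact h3.1 M k (cons h fun _ => G) (fun i => by cases i <;> assumption)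
    · refine isFunc_resS om (extS N G) _ fun n hn => ?_
      exact mem_extS.2 ⟨_, app_mem h1 hn, rfl⟩
    · intro b hb
      obtain ⟨x, hx, rfl⟩ := mem_extS.1 hb
      obtain ⟨n, hn, hnx⟩ := h2 x hx
      refine ⟨n, hn, pair_mem_resS.2 ⟨hn, ?_⟩⟩
      rw [app_eq (svl_of_isFunc h1) hnx]

theorem vh (hVE : T_VE) (hVF : T_VF) (hLNG : T_LNG) (hLPR : T_LPR) (hLFU : T_LFU) (hLHE : T_LHE)
    (hFI : T_FI) (hFJ : T_FJ) (hWF : T_WF) (hWG : T_WG) : T_VH := by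
  intro S g hg hne htr
  obtain ⟨⟨a1, a2, a3, a4, a5, a6, a7, a8, a9, a10⟩, b, ⟨c1, c2, c3, c4, c5, c6, c7, c8, c9, c10⟩,
    d1, d2, d3, d4, -⟩ := hVE S
  obtain ⟨f1, f2, f3, f4, f5, f6, f7, f8, f9⟩ := hVF S
  obtain ⟨-, -, hpos, hincl, -⟩ := hWF
  have kM : ZFm (· ∈ S.M) := S.zfc.toZFCm.toZFm
  have pN : pos S.B ∈ S.N := hpos.1 (· ∈ S.N) S.zN.toZFm (fun _ => S.B) fun _ => c1
  have iN : incl S.B ∈ S.N := hincl.1 (· ∈ S.N) S.zN.toZFm (fun _ => S.B) fun _ => c1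
  have pM : pos S.B ∈ S.M := hpos.1 (· ∈ S.M) kM (fun _ => S.B) fun _ => S.mB
  have iM : incl S.B ∈ S.M := hincl.1 (· ∈ S.M) kM (fun _ => S.B) fun _ => S.mB
  have pN' : pos S.B' ∈ S.N' := hpos.1 (· ∈ S.N') S.zN'.toZFm (fun _ => S.B') fun _ => a1
  have iN' : incl S.B' ∈ S.N' := hincl.1 (· ∈ S.N') S.zN'.toZFm (fun _ => S.B') fun _ => a1
  have po : IsPo (pos S.B) (incl S.B) := hWG.2.2.1 _ S.B S.cba S.ne
  have po' : IsPo (pos S.B') (incl S.B') := hWG.2.2.1 _ S.B' d2 d3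
  have genN : Gen (· ∈ S.N) (pos S.B) (incl S.B) S.G :=
    ⟨S.gen.1, fun D hD => S.gen.2 D (kM.trans _ S.mN _ hD)⟩
  have zN2 : ZFCm (· ∈ S.N2) := by
    have h1 := hFJ (· ∈ S.N) _ _ S.G S.zN pN iN po genN
    rw [ext_eq_extS] at h1
    exact h1
  have hWM : ∀ x, x ∈ S.M → S.W x := (hFI (· ∈ S.M) _ _ S.G kM pM iM po S.gen).2.1
  obtain ⟨B2, hB2, -, hN2⟩ := hLNG S.N S.A _ _ S.G S.τ S.zN S.mA S.eN pN iN po genN
  obtain ⟨⟨A2, τ2, hA2, -, hA3⟩, -⟩ := hLPR S.N2' S.N2 g B2 S.τ hg hne htr zN2 hB2 hN2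
  have hc := vh_ctbl kM S.mN' f8 (vh_nonempty (M := fun _ => True) S.zN'.toZFm) S.ct'
  refine ⟨⟨A2, hA2, hA3, app_mem hg.func hA2⟩, ?_, hWM _ hc.1, ?_, ?_, ?_⟩
  · have h1 := hLHE ∅ S.A S.τ (by
      intro x hx
      exact absurd hx (ZFSet.notMem_empty _))
    have h2 : Lh ∅ S.A S.τ = S.N := S.eN.symm
    rw [h2] at h1
    exact ((h1 S.zN.toZFm S.zN.toZFm.mempty S.mA).2 S.θ).1 c9
  · rcases hc.2 with h | ⟨h, h1, h2⟩
    · exact Or.inl h
    · exact Or.inr ⟨h, hWM _ h1, h2⟩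
  · exact hLFU S.W S.N' S.A' _ _ S.Gs S.τ' (full_mono S.full hWM) S.zN' S.mA' S.eN' pN' iN' po' f3
  · intro x hx
    have h1 := S.vhn x hx
    obtain ⟨z, p, hp, h2, rfl⟩ := mem_val.1 h1
    exact mem_extS.2 ⟨z, (S.zN.toZFm.of_pair_mem c10 h2).1, rfl⟩

end SF.H11
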