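import Pool.Agent.H72.SF.VT

/-! Module VI: the small forcing notion and its generic filter (MP_3b3fc8_lc). -/

set_option linter.unusedVariables false

open Ordinal Cardinal Order Set
open scoped ZFSet

namespace SF.H11

open SF

/-- the relation between the preorder of names and the forcing notion -/
def viR (v : ℕ → V) : Prop := ∀ ξ ∈ v 3, ∀ η ∈ v 3,
  (app (v 4) (ZFSet.pair ξ η) ∈ v 5 ↔ ZFSet.pair (app (v 2) ξ) (app (v 2) η) ∈ v 1)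

theorem viR_dfb : Dfb ZFm (fun _ v => viR v) := by
  have h1 : Dfb ZFm (fun _ v => app (v 6) (ZFSet.pair (v 1) (v 0)) ∈ v 7 ↔
      ZFSet.pair (app (v 4) (v 1)) (app (v 4) (v 0)) ∈ v 3) :=
    (Dfb.mem ((Tm.var 6).app ((Tm.var 1).pair (Tm.var 0))) (Tm.var 7)).iff
      (Dfb.pairMem ((Tm.var 4).app (Tm.var 1)) ((Tm.var 4).app (Tm.var 0)) (Tm.var 3))
  have h2 : Dfb ZFm (fun _ v => ∀ η ∈ v 4, (app (v 5) (ZFSet.pair (v 0) η) ∈ v 6 ↔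
      ZFSet.pair (app (v 3) (v 0)) (app (v 3) η) ∈ v 2)) :=
    (Dfb.ball ktr_zfm (Tm.var 4) h1).congr fun M k v hv => Iff.rfl
  exact (Dfb.ball ktr_zfm (Tm.var 3) h2).congr fun M k v hv => Iff.rfl

/-- six parameters -/
noncomputable def viv (a b c d e f : V) : ℕ → V :=
  cons a (cons b (cons c (cons d (cons e fun _ => f))))

theorem viv_in {P : V → Prop} {a b c d e f : V} (ha : P a) (hb : P b) (hc : P c) (hd : P d)
    (he : P e) (hf : P f) (i : ℕ) : P (viv a b c d e f i) := by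
  match i with
  | 0 => exact ha
  | 1 => exact hb
  | 2 => exact hc
  | 3 => exact hd
  | 4 => exact he
  | n + 5 => exact hf

theorem viv_app (g a b c d e f : V) : (fun i => app g (viv a b c d e f i)) =
    viv (app g a) (app g b) (app g c) (app g d) (app g e) (app g f) := by
  funext i
  match i with
  | 0 => rfl
  | 1 => rfl
  | 2 => rfl
  | 3 => rfl
  | 4 => rfl
  | n + 5 => rfl

theorem vi_rt {mu ρ G z : V} : z ∈ rt mu ρ G ↔ z ∈ ZFSet.prod mu mu ∧ app ρ z ∈ G := by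
  unfold rt
  exact ZFSet.mem_sep

theorem vi_rt_tm : Tm ZFm (fun _ v => rt (v 0) (v 1) (v 2)) := by
  unfold rt
  exact (Tm.sep (R := fun _ v => app (v 2) (v 0) ∈ v 3)
    (Dfb.mem ((Tm.var 2).app (Tm.var 0)) (Tm.var 3)) ((Tm.var 0).prod (Tm.var 0))).congr
    fun M k v hv => rfl

theorem vi_gc_tm : Tm ZFm (fun _ v => (v 0).sep fun y => ∃ ξ ∈ v 3,
    ZFSet.pair (app (v 2) ξ) y ∈ v 1) := by
  have h1 : Dfb ZFm (fun _ v => ZFSet.pair (app (v 4) (v 0)) (v 1) ∈ v 3) :=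
    Dfb.pairMem ((Tm.var 4).app (Tm.var 0)) (Tm.var 1) (Tm.var 3)
  have h2 : Dfb ZFm (fun _ v => ∃ ξ ∈ v 4, ZFSet.pair (app (v 3) ξ) (v 0) ∈ v 2) :=
    (Dfb.bex ktr_zfm (Tm.var 4) h1).congr fun M k v hv => Iff.rfl
  exact (Tm.sep h2 (Tm.var 0)).congr fun M k v hv => rfl

theorem vi_val {M : V → Prop} (k : ZFm M) {G x : V} (hG : M G) (hx : M x) : M (val G x) :=
  (Tm.val (Tm.var 0) (Tm.var 1)).1 M k (cons G fun _ => x) fun i => by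
    cases i <;> assumption

theorem vi (hVE : T_VE) (hVF : T_VF) (hVG : T_VG) (hVB : T_VB) (hLED : T_LED) (hFI : T_FI)
    (hWF : T_WF) (hWG : T_WG) : T_VI := by
  intro S
  obtain ⟨⟨a1, a2, a3, a4, a5, a6, a7, a8, a9, a10⟩,
    ⟨b1, b2, b3, b4, b5, b6, b7, b8, b9, b10⟩, ⟨c1, c2, c3, c4, c5, c6, c7, c8, c9, c10⟩,
    d1, d2, d3, d4, -⟩ := hVE S
  obtain ⟨f1, f2, f3, f4, f5, f6, f7, f8, f9⟩ := hVF S
  obtain ⟨g, g1, g2, g3, g4, g5, g6, g7, g8, g9, g10, g11, -, -⟩ := hVG S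
  have k' : ZFm (· ∈ S.N2') := g10.toZFm
  have k : ZFm (· ∈ S.N2) := g11.toZFm
  have kM : ZFm (· ∈ S.M) := S.zfc.toZFCm.toZFm
  obtain ⟨-, -, hpos, hincl, -⟩ := hWF
  have pM : pos S.B ∈ S.M := hpos.1 (· ∈ S.M) kM (fun _ => S.B) fun _ => S.mB
  have iM : incl S.B ∈ S.M := hincl.1 (· ∈ S.M) kM (fun _ => S.B) fun _ => S.mB
  have po : IsPo (pos S.B) (incl S.B) := hWG.2.2.1 _ S.B S.cba S.ne
  have hWM : ∀ x, x ∈ S.M → S.W x := (hFI (· ∈ S.M) _ _ S.G kM pM iM po S.gen).2.1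
  have ec : app g S.c' = S.c := by
    have h := g5 _ a6
    rw [b6, S.vcn] at h
    exact h
  have er : app g S.r' = S.r := by
    have h := g5 _ a7
    rw [b7, S.vrn] at h
    exact h
  have ee : app g S.e' = S.e := by
    have h := g5 _ a8
    rw [b8, S.ven] at h
    exact h
  have mc : S.c' ∈ S.N2' := mem_extS.2 ⟨_, a6, rfl⟩
  have mr : S.r' ∈ S.N2' := mem_extS.2 ⟨_, a7, rfl⟩
  have me : S.e' ∈ S.N2' := mem_extS.2 ⟨_, a8, rfl⟩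
  have mmu : S.mu' ∈ S.N2' := g6 a2
  have mρ : S.ρ' ∈ S.N2' := g6 a3
  have emu : app g S.mu' = S.mu := (g3 _ a2).trans b2
  have eρ : app g S.ρ' = S.ρ := (g3 _ a3).trans b3
  have hv : ∀ i, viv S.c' S.r' S.e' S.mu' S.ρ' S.Gs i ∈ S.N2' :=
    viv_in (P := (· ∈ S.N2')) mc mr me mmu mρ g8
  have hw : (fun i => app g (viv S.c' S.r' S.e' S.mu' S.ρ' S.Gs i)) =
      viv S.c S.r S.e S.mu S.ρ S.G := by
    rw [viv_app, ec, er, ee, emu, eρ, g4]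
  have p1 : IsPo S.c' S.r' := by
    have h1 := hLED ZFm (fun _ v => IsPo (v 0) (v 1)) (Dfb.isPo (Tm.var 0) (Tm.var 1))
      _ _ g g1 k' k _ hv
    rw [hw] at h1
    exact h1.2 S.po
  have p2 : Onto S.e' S.mu' S.c' := by
    have h1 := hLED ZFm (fun _ v => Onto (v 2) (v 3) (v 0))
      (Dfb.onto (Tm.var 2) (Tm.var 3) (Tm.var 0)) _ _ g g1 k' k _ hv
    rw [hw] at h1
    exact h1.2 S.onto
  have p3 : viR (viv S.c' S.r' S.e' S.mu' S.ρ' S.Gs) := by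
    have h1 := hLED ZFm (fun _ v => viR v) viR_dfb _ _ g g1 k' k _ hv
    rw [hw] at h1
    exact h1.2 S.eq
  have mrt : rt S.mu' S.ρ' S.Gs ∈ S.N2' :=
    vi_rt_tm.1 (· ∈ S.N2') k' (cons S.mu' (cons S.ρ' fun _ => S.Gs)) fun i => by
      match i with
      | 0 => exact mmu
      | 1 => exact mρ
      | n + 2 => exact g8
  have hrt : ∀ ξ η, ZFSet.pair ξ η ∈ rt S.mu' S.ρ' S.Gs ↔ ξ ∈ S.mu' ∧ η ∈ S.mu' ∧
      ZFSet.pair (app S.e' ξ) (app S.e' η) ∈ S.r' := by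
    intro ξ η
    rw [vi_rt, ZFSet.pair_mem_prod]
    constructor
    · rintro ⟨⟨h1, h2⟩, h3⟩
      exact ⟨h1, h2, (p3 ξ h1 η h2).1 h3⟩
    · rintro ⟨h1, h2, h3⟩
      exact ⟨⟨h1, h2⟩, (p3 ξ h1 η h2).2 h3⟩
  have hB := hVB (· ∈ S.N2') S.mu' S.c' S.r' (rt S.mu' S.ρ' S.Gs) S.e' k' mmu mc mr mrt me p1 p2
    hrt (fun z hz => (ZFSet.mem_sep.1 hz).1)
  have f4' : Gen (· ∈ S.N2') S.mu' (rt S.mu' S.ρ' S.Gs) S.Hs := by
    rw [ext_eq_extS] at f4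
    exact f4
  obtain ⟨q1, q2⟩ := hB.2.1 S.Hs f4'
  refine ⟨p1, p2, mc, mr, me, q1, ?_, fun ξ hξ => ⟨f4'.1.sub hξ, q2 ξ hξ⟩⟩
  refine hWM _ ?_
  have m1 : ∀ x ∈ S.N', x ∈ S.M := fun x hx => kM.trans _ S.mN' x hx
  have h1 : S.c' ∈ S.M := vi_val kM f8 (m1 _ a6)
  have h2 : S.r' ∈ S.M := vi_val kM f8 (m1 _ a7)
  have h3 : S.e' ∈ S.M := vi_val kM f8 (m1 _ a8)
  exact vi_gc_tm.1 (· ∈ S.M) kM (cons S.c' (cons S.r' (cons S.e' fun _ => S.Hs))) fun i => by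
    match i with
    | 0 => exact h1
    | 1 => exact h2
    | 2 => exact h3
    | n + 3 => exact f9

end SF.H11
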