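import Pool.Agent.H45.SF.GT
import Pool.Agent.H9.SF.Bas

/-! The structure `N'` of a nice pair is a model of ZFC minus power set (module ZN of
MP_3b3fc8_lc). -/

open Ordinal Cardinal Order Set
open scoped ZFSet

namespace SF.H11

open SF

section

variable {B N' N : V} [IsCBA B] {b : El B} {σ : V → V → El B}

/-- finitely many elements have images with nonzero value -/
theorem exw (hm : BMap N' N b σ) (hb : b ≠ ⊥) (v : ℕ → V) (hv : ∀ i, v i ∈ N') (n : ℕ) :
    ∃ w : ℕ → V, (b ⊓ (Finset.range n).inf fun i => σ (v i) (w i)) ≠ ⊥ := by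
  induction n with
  | zero => exact ⟨fun _ => ∅, by simpa using hb⟩
  | succ n ih =>
    obtain ⟨w, hw⟩ := ih
    have h1 : (b ⊓ (Finset.range n).inf fun i => σ (v i) (w i)) ⊓ ⨆ y, σ (v n) y ≠ ⊥ := by
      rw [hm.tot _ (hv n), inf_comm, ← inf_assoc, inf_idem]
      exact hw
    rw [inf_iSup_eq] at h1
    have h2 : ∃ y, (b ⊓ (Finset.range n).inf fun i => σ (v i) (w i)) ⊓ σ (v n) y ≠ ⊥ := by
      by_contra hcon
      push Not at hcon
      apply h1
      simp only [hcon, iSup_bot]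
    obtain ⟨y, hy⟩ := h2
    refine ⟨Function.update w n y, ?_⟩
    have h3 : ((Finset.range n).inf fun i => σ (v i) (Function.update w n y i)) =
        (Finset.range n).inf fun i => σ (v i) (w i) := by
      refine Finset.inf_congr rfl fun i hi => ?_
      have : i ≠ n := (Finset.mem_range.1 hi).ne
      rw [Function.update_of_ne this]
    rw [Finset.range_add_one, Finset.inf_insert, h3, Function.update_self]
    rw [inf_left_comm, inf_comm]
    exact hy

/-- transfer of a relation which is definable over a class of structures containing both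
structures -/
theorem trn {K : (V → Prop) → Prop} {R : (V → Prop) → (ℕ → V) → Prop} (hR : Dfb K R)
    (k1 : K (· ∈ N')) (k2 : K (· ∈ N)) (hm : BMap N' N b σ) (hb : b ≠ ⊥) (v : ℕ → V)
    (hv : ∀ i, v i ∈ N') :
    ∃ w : ℕ → V, (∀ i, w i ∈ N) ∧ (R (· ∈ N') v ↔ R (· ∈ N) w) := by
  classical
  obtain ⟨φ, hφ⟩ := hR
  obtain ⟨w, hw⟩ := exw hm hb v hv (max φ.bd 1)
  set n := max φ.bd 1 with hn
  have hn1 : 1 ≤ n := le_max_right _ _
  have hn2 : φ.bd ≤ n := le_max_left _ _
  have h1 : ((Finset.range n).inf fun i => σ (v i) (w i)) ≠ ⊥ := by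
    intro h
    apply hw
    rw [h, inf_bot_eq]
  have h2 : ∀ i, min i (n - 1) ∈ Finset.range n := by
    intro i
    rw [Finset.mem_range]
    omega
  have hwN : ∀ i, w (min i (n - 1)) ∈ N := by
    intro i
    have h3 : σ (v (min i (n - 1))) (w (min i (n - 1))) ≠ ⊥ := by
      intro h
      apply h1
      exact le_bot_iff.1 (h ▸ Finset.inf_le (h2 i))
    exact (hm.dom _ _ h3).2
  refine ⟨fun i => w (min i (n - 1)), hwN, ?_⟩
  have h4 := hm.el ((Finset.range n).image fun i => (v i, w i)) (by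
    rw [Finset.inf_image]
    exact h1) (fun i => (v (min i (n - 1)), w (min i (n - 1)))) (fun i =>
      Finset.mem_image_of_mem _ (h2 i)) φ
  have h5 : Sat (· ∈ N') φ v ↔ Sat (· ∈ N') φ (fun i => v (min i (n - 1))) := by
    refine satP_congr _ _ φ _ _ fun i hi => ?_
    have : min i (n - 1) = i := by omega
    rw [this]
  rw [← hφ _ k1 v hv, h5, h4]
  exact hφ _ k2 _ hwN

end

section dfb

variable {K : (V → Prop) → Prop}

theorem dpair (hK : KTr K) : Dfb K (fun _ v => v 0 = ({v 1, v 2} : V)) := by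
  have h1 : Dfb K (fun _ v => v 0 ∈ v 1 ↔ (v 0 = v 2 ∨ v 0 = v 3)) :=
    (Dfb.mem (Tm.var 0) (Tm.var 1)).iff
      ((Dfb.eq (Tm.var 0) (Tm.var 2)).or (Dfb.eq (Tm.var 0) (Tm.var 3)))
  refine h1.all.congr fun M k v hv => ?_
  constructor
  · intro h
    ext t
    rw [ZFSet.mem_pair]
    constructor
    · intro ht
      exact (h t (hK M k _ (hv 0) t ht)).1 ht
    · rintro (rfl | rfl)
      · exact (h _ (hv 1)).2 (Or.inl rfl)
      · exact (h _ (hv 2)).2 (Or.inr rfl)
  · intro h t _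
    show t ∈ v 0 ↔ (t = v 1 ∨ t = v 2)
    rw [h, ZFSet.mem_pair]

theorem dunion (hK : KTr K) : Dfb K (fun _ v => v 0 = (⋃₀ (v 1) : ZFSet)) := by
  have h0 : Dfb K (fun _ v => ∃ y ∈ v 2, v 0 ∈ y) :=
    (Dfb.bex (R := fun _ v => v 1 ∈ v 0) hK (Tm.var 2)
      (Dfb.mem (Tm.var 1) (Tm.var 0))).congr fun M k v hv => Iff.rfl
  have h1 : Dfb K (fun _ v => v 0 ∈ v 1 ↔ ∃ y ∈ v 2, v 0 ∈ y) :=
    (Dfb.mem (Tm.var 0) (Tm.var 1)).iff h0
  refine h1.all.congr fun M k v hv => ?_
  constructor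
  · intro h
    ext t
    rw [ZFSet.mem_sUnion]
    constructor
    · intro ht
      exact (h t (hK M k _ (hv 0) t ht)).1 ht
    · rintro ⟨y, hy, ht⟩
      exact (h _ (hK M k _ (hK M k _ (hv 1) y hy) t ht)).2 ⟨y, hy, ht⟩
  · intro h t _
    show t ∈ v 0 ↔ ∃ y ∈ v 1, t ∈ y
    rw [h, ZFSet.mem_sUnion]

theorem dsat (φ : Fml) (ρ : ℕ → ℕ) : Dfb K (fun M v => Sat M φ (fun i => v (ρ i))) :=
  Dfb.rn (R := fun M v => Sat M φ v) ⟨φ, fun _ _ _ _ => Iff.rfl⟩ ρ

theorem dsep (hK : KTr K) (φ : Fml) : Dfb K (fun M v => v 0 = (v 1).sep fun z =>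
    Sat M φ (cons z fun i => v (i + 2))) := by
  have h0 : Dfb K (fun M v => Sat M φ (cons (v 0) fun i => v (i + 3))) := by
    refine (dsat φ (fun i => match i with | 0 => 0 | i + 1 => i + 3)).congr fun M k v hv => ?_
    have e : (fun i => v (match i with | 0 => 0 | i + 1 => i + 3)) =
        cons (v 0) fun i => v (i + 3) := by
      funext i; cases i <;> rfl
    rw [e]
  have h1 : Dfb K (fun M v => v 0 ∈ v 1 ↔ (v 0 ∈ v 2 ∧ Sat M φ (cons (v 0) fun i => v (i + 3)))) :=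
    (Dfb.mem (Tm.var 0) (Tm.var 1)).iff ((Dfb.mem (Tm.var 0) (Tm.var 2)).and h0)
  refine h1.all.congr fun M k v hv => ?_
  constructor
  · intro h
    ext t
    rw [ZFSet.mem_sep]
    constructor
    · intro ht
      exact (h t (hK M k _ (hv 0) t ht)).1 ht
    · intro ht
      exact (h t (hK M k _ (hv 1) t ht.1)).2 ht
  · intro h t _
    show t ∈ v 0 ↔ (t ∈ v 1 ∧ Sat M φ (cons t fun i => v (i + 2)))
    rw [h, ZFSet.mem_sep]

/-- `a`, the parameters `v` -/
theorem dcoll1 (hK : KTr K) (φ : Fml) : Dfb K (fun M v => ∀ x ∈ v 0, ∃ y, M y ∧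
    Sat M φ (cons y (cons x fun i => v (i + 1)))) := by
  have h0 : Dfb K (fun M v => Sat M φ (cons (v 0) (cons (v 1) fun i => v (i + 3)))) := by
    refine (dsat φ (fun i => match i with | 0 => 0 | 1 => 1 | i + 2 => i + 3)).congr
      fun M k v hv => ?_
    have e : (fun i => v (match i with | 0 => 0 | 1 => 1 | i + 2 => i + 3)) =
        cons (v 0) (cons (v 1) fun i => v (i + 3)) := by
      funext i
      match i with
      | 0 => rfl
      | 1 => rfl
      | i + 2 => rfl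
    rw [e]
  refine (Dfb.ball (R := fun M v => ∃ y, M y ∧
    Sat M φ (cons y (cons (v 0) fun i => v (i + 2)))) hK (Tm.var 0) ?_).congr
    fun M k v hv => Iff.rfl
  exact h0.ex.congr fun M k v hv => Iff.rfl

theorem dcoll2 (hK : KTr K) (φ : Fml) : Dfb K (fun M v => ∃ b, M b ∧ ∀ x ∈ v 0, ∃ y ∈ b,
    Sat M φ (cons y (cons x fun i => v (i + 1)))) := by
  have h0 : Dfb K (fun M v => Sat M φ (cons (v 0) (cons (v 1) fun i => v (i + 4)))) := by
    refine (dsat φ (fun i => match i with | 0 => 0 | 1 => 1 | i + 2 => i + 4)).congr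
      fun M k v hv => ?_
    have e : (fun i => v (match i with | 0 => 0 | 1 => 1 | i + 2 => i + 4)) =
        cons (v 0) (cons (v 1) fun i => v (i + 4)) := by
      funext i
      match i with
      | 0 => rfl
      | 1 => rfl
      | i + 2 => rfl
    rw [e]
  refine Dfb.congr (Dfb.ex (R := fun M v => ∀ x ∈ v 1, ∃ y ∈ v 0,
    Sat M φ (cons y (cons x fun i => v (i + 2)))) ?_) fun M k v hv => Iff.rfl
  refine (Dfb.ball (R := fun M v => ∃ y ∈ v 1,
    Sat M φ (cons y (cons (v 0) fun i => v (i + 3)))) hK (Tm.var 1) ?_).congr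
    fun M k v hv => Iff.rfl
  exact (Dfb.bex (R := fun M v => Sat M φ (cons (v 0) (cons (v 1) fun i => v (i + 4)))) hK
    (Tm.var 1) h0).congr fun M k v hv => Iff.rfl

end dfb

theorem zn : T_ZN := by
  intro B _ N' N b σ hN hm hb
  let K : (V → Prop) → Prop := fun M => M = (· ∈ N') ∨ M = (· ∈ N)
  have hK : KTr K := by
    intro M k x hx y hy
    rcases k with rfl | rfl
    · exact hN.full.1 x hx hy
    · exact hN.zfc.trans x hx y hy
  have k1 : K (· ∈ N') := Or.inl rfl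
  have k2 : K (· ∈ N) := Or.inr rfl
  have zf : ZFm (· ∈ N') := by
    refine ⟨fun x hx y hy => hN.full.1 x hx hy, ?_, ?_, hN.full.2.1, ?_, ?_⟩
    · intro x y hx hy
      have hR := (dpair hK).ex
      obtain ⟨w, hw, h⟩ := trn hR k1 k2 hm hb (cons x fun _ => y) (fun i => by
        cases i with
        | zero => exact hx
        | succ i => exact hy)
      obtain ⟨z, hz, h2⟩ := h.2 ⟨_, hN.zfc.pair _ _ (hw 0) (hw 1), rfl⟩
      have h3 : z = {x, y} := h2
      rwa [h3] at hz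
    · intro x hx
      have hR := (dunion hK).ex
      obtain ⟨w, hw, h⟩ := trn hR k1 k2 hm hb (fun _ => x) (fun i => hx)
      obtain ⟨z, hz, h2⟩ := h.2 ⟨_, hN.zfc.union _ (hw 0), rfl⟩
      have h3 : z = (⋃₀ x : ZFSet) := h2
      rwa [h3] at hz
    · intro φ v a hv ha
      have hR := (dsep hK φ).ex
      obtain ⟨w, hw, h⟩ := trn hR k1 k2 hm hb (cons a v) (fun i => by
        cases i with
        | zero => exact ha
        | succ i => exact hv i)
      obtain ⟨z, hz, h2⟩ := h.2 ⟨_, hN.zfc.sep φ (fun i => w (i + 1)) (w 0) (fun i => hw _)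
        (hw 0), rfl⟩
      have h3 : z = a.sep fun z => Sat (· ∈ N') φ (cons z v) := h2
      rwa [h3] at hz
    · intro φ v a hv ha hyp
      have hR := (dcoll1 hK φ).imp (dcoll2 hK φ)
      obtain ⟨w, hw, h⟩ := trn hR k1 k2 hm hb (cons a v) (fun i => by
        cases i with
        | zero => exact ha
        | succ i => exact hv i)
      exact h.2 (fun h3 => hN.zfc.coll φ (fun i => w (i + 1)) (w 0) (fun i => hw _) (hw 0) h3) hyp
  refine ⟨zf, ?_⟩
  intro x hx
  have hR : Dfb ZFm (fun M v => ∃ a, M a ∧ ∃ f, M f ∧ (IsOrd a ∧ Onto f a (v 0))) := by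
    refine Dfb.congr (Dfb.ex (R := fun M v => ∃ f, M f ∧ (IsOrd (v 0) ∧ Onto f (v 0) (v 1))) ?_)
      fun M k v hv => Iff.rfl
    refine Dfb.congr (Dfb.ex (R := fun M v => IsOrd (v 1) ∧ Onto (v 0) (v 1) (v 2)) ?_)
      fun M k v hv => Iff.rfl
    exact (Dfb.isOrd (Tm.var 1)).and (Dfb.onto (Tm.var 0) (Tm.var 1) (Tm.var 2))
  obtain ⟨w, hw, h⟩ := trn hR zf hN.zfc.toZFm hm hb (fun _ => x) (fun i => hx)
  obtain ⟨a, ha, f, hf, ⟨α, rfl⟩, h2⟩ := h.2 (by
    obtain ⟨α, f, hf, h3⟩ := hN.zfc.wo (w 0) (hw 0)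
    refine ⟨α.toZFSet, ?_, f, hf, ⟨α, rfl⟩, h3⟩
    have h4 := (Tm.dm (Tm.var 0)).1 (· ∈ N) hN.zfc.toZFm (fun _ => f) (fun _ => hf)
    have h5 : dm f = α.toZFSet := by
      ext z
      rw [mem_dm]
      constructor
      · rintro ⟨y, hy⟩
        exact (ZFSet.pair_mem_prod.1 (h3.1.1 hy)).1
      · intro hz
        obtain ⟨y, hy, -⟩ := h3.1.2 z hz
        exact ⟨y, hy⟩
    rw [← h5]
    exact h4)
  exact ⟨α, f, hf, h2⟩

end SF.H11
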